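import Pool.Agent.R627.AC.Stm
import Pool.Agent.Helper114.SideLog

/-!
The functions attached to an alpha-convex function (AC11).
-/
namespace Pool.Agent.R627.AC

open PowerSeries Metric Pool.Agent.R194.Baz Filter Topology

lemma hd_of {g : ℂ → ℂ} (hg : An g) {z : ℂ} (hz : z ∈ ball (0:ℂ) 1) :
    HasDerivAt g (deriv g z) z :=
  ((hg z hz).differentiableAt (isOpen_ball.mem_nhds hz)).hasDerivAt

lemma An.deriv {g : ℂ → ℂ} (hg : An g) : An (_root_.deriv g) :=
  DifferentiableOn.deriv hg isOpen_ball

lemma zero_of_mul {A : ℂ → ℂ} (hA : An A) (h : ∀ z ∈ ball (0:ℂ) 1, z * A z = 0) :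
    ∀ z ∈ ball (0:ℂ) 1, A z = 0 := by
  intro z hz
  by_cases h0 : z = 0
  · subst h0
    have hc : Tendsto A (𝓝[≠] 0) (𝓝 (A 0)) :=
      ((hd_of hA (mem_ball_self one_pos)).continuousAt.tendsto).mono_left nhdsWithin_le_nhds
    have he : Tendsto A (𝓝[≠] 0) (𝓝 0) := by
      apply tendsto_const_nhds.congr'
      have : ball (0:ℂ) 1 ∈ 𝓝[≠] (0:ℂ) := mem_nhdsWithin_of_mem_nhds (ball_mem_nhds _ one_pos)
      filter_upwards [this, self_mem_nhdsWithin] with w hw hw0
      exact ((mul_eq_zero.1 (h w hw)).resolve_left hw0).symm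
    exact tendsto_nhds_unique hc he
  · exact (mul_eq_zero.1 (h z hz)).resolve_left h0

theorem f_all : StF := by
  intro α f h0 h1 hf
  have h0m : (0:ℂ) ∈ ball (0:ℂ) 1 := mem_ball_self one_pos
  have hfA : An f := hf.diff
  set u : ℂ → ℂ := dslope f 0 with hu
  have huA : An u := (Complex.differentiableOn_dslope (ball_mem_nhds _ one_pos)).2 hf.diff
  have hfu : ∀ z, f z = z * u z := by
    intro z
    have := sub_smul_dslope f 0 z
    rw [hf.zero, sub_zero, sub_zero, smul_eq_mul] at this
    exact this.symm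
  have hu0 : u 0 = 1 := by rw [hu, dslope_same, hf.one]
  have hune : ∀ z ∈ ball (0:ℂ) 1, u z ≠ 0 := by
    intro z hz
    by_cases hz0 : z = 0
    · rw [hz0, hu0]; exact one_ne_zero
    · intro h
      have : f z = f 0 := by rw [hfu z, h, mul_zero, hf.zero]
      exact hz0 (hf.inj hz h0m this)
  have hf' : ∀ z ∈ ball (0:ℂ) 1, deriv f z ≠ 0 := fun z hz =>
    Helper114.SideLog.deriv_ne_zero_of_injOn isOpen_ball hf.diff hf.inj hz
  have hdf : An (deriv f) := An.deriv hfA
  set q : ℂ → ℂ := fun z => deriv f z / u z with hq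
  have hqA : An q := DifferentiableOn.div hdf huA hune
  have hq0 : q 0 = 1 := by rw [hq]; simp only []; rw [hu0, hf.one, div_one]
  have hqne : ∀ z ∈ ball (0:ℂ) 1, q z ≠ 0 := fun z hz => div_ne_zero (hf' z hz) (hune z hz)
  have hfq : ∀ z ∈ ball (0:ℂ) 1, z * deriv f z = f z * q z := by
    intro z hz
    have := hune z hz
    rw [hfu z, hq]; field_simp
  -- derivative of `u`
  have hud : ∀ z ∈ ball (0:ℂ) 1, z * deriv u z = u z * (q z - 1) := by
    intro z hz
    have h2 : HasDerivAt f (1 * u z + z * deriv u z) z := by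
      have := (hasDerivAt_id z).mul (hd_of huA hz)
      refine this.congr_of_eventuallyEq (Filter.Eventually.of_forall fun w => ?_)
      rw [hfu w]; rfl
    have h3 := h2.deriv
    have := hune z hz
    have e : q z * u z = deriv f z := by rw [hq]; field_simp
    linear_combination (-1:ℂ) * h3 - e
  have hqd : ∀ z ∈ ball (0:ℂ) 1, z * deriv q z = q z * (1 + z * deriv (deriv f) z / deriv f z - q z) := by
    intro z hz
    have h2 : HasDerivAt q _ z := (hd_of hdf hz).div (hd_of huA hz) (hune z hz)
    rw [h2.deriv]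
    have hu' := hune z hz
    have hd' := hf' z hz
    have e1 := hud z hz
    have e2 : z * ((deriv (deriv f) z * u z - deriv f z * deriv u z) / u z ^ 2) =
        (z * deriv (deriv f) z * u z - deriv f z * (z * deriv u z)) / u z ^ 2 := by ring
    rw [e2, e1]
    have e3 : q z = deriv f z / u z := rfl
    rw [e3]
    field_simp
    ring
  set p : ℂ → ℂ := fun z => q z + (α:ℂ) * z * deriv q z / q z with hp
  have hpA : An p := by
    refine DifferentiableOn.add hqA (DifferentiableOn.div ?_ hqA hqne)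
    exact ((differentiableOn_const _).mul differentiableOn_id).mul (An.deriv hqA)
  have hp0 : p 0 = 1 := by simp only [hp]; rw [hq0]; simp
  have hode : ∀ z ∈ ball (0:ℂ) 1, (α:ℂ) * z * deriv q z = q z * (p z - q z) := by
    intro z hz
    have := hqne z hz
    simp only [hp]; field_simp; ring
  have hppos : ∀ z ∈ ball (0:ℂ) 1, 0 < (p z).re := by
    intro z hz
    by_cases hz0 : z = 0
    · rw [hz0, hp0]; simp
    · have h2 := hf.pos z hz hz0
      have hfz : f z ≠ 0 := by rw [hfu z]; exact mul_ne_zero hz0 (hune z hz)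
      have e1 : z * deriv f z / f z = q z := by rw [hfq z hz]; field_simp
      rw [e1] at h2
      have hqz := hqne z hz
      have e2 : p z = (α:ℂ) * (1 + z * deriv (deriv f) z / deriv f z) + (1 - (α:ℂ)) * q z := by
        have e3 : (α:ℂ) * z * deriv q z / q z = (α:ℂ) * (1 + z * deriv (deriv f) z / deriv f z - q z) := by
          rw [mul_assoc, hqd z hz]; field_simp
        simp only [hp]; rw [e3]; ring
      rw [e2]; exact h2
  -- primitive
  have hPA : DifferentiableOn ℂ (dslope p 0) (ball 0 1) :=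
    (Complex.differentiableOn_dslope (ball_mem_nhds _ one_pos)).2 hpA
  obtain ⟨L, hL0, hL⟩ := (DifferentiableOn.isExactOn_ball hPA).with_val_at 0 0
  have hLA : An L := fun z hz => (hL z hz).differentiableAt.differentiableWithinAt
  have hLd : ∀ z ∈ ball (0:ℂ) 1, z * deriv L z = p z - 1 := by
    intro z hz
    rw [(hL z hz).deriv]
    have := sub_smul_dslope p 0 z
    rw [sub_zero, smul_eq_mul, hp0] at this
    exact this
  refine ⟨q, p, L, hqA, hpA, hLA, hq0, hp0, hL0, hppos, hode, hLd, hfq, ?_⟩
  intro hqpos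
  have hslit : ∀ z ∈ ball (0:ℂ) 1, q z ∈ Complex.slitPlane := fun z hz =>
    Complex.mem_slitPlane_iff.2 (Or.inl (hqpos z hz))
  set c : ℂ := ((1 - α : ℝ) : ℂ) with hc
  set Φ : ℂ → ℂ := fun z => deriv f z * Complex.exp (-(L z + c * Complex.log (q z))) with hΦ
  have hΦd : ∀ z ∈ ball (0:ℂ) 1, HasDerivAt Φ (deriv (deriv f) z *
      Complex.exp (-(L z + c * Complex.log (q z))) + deriv f z *
      (Complex.exp (-(L z + c * Complex.log (q z))) *
        (-(deriv L z + c * (deriv q z / q z))))) z := by
    intro z hz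
    exact (hd_of hdf hz).mul (((hd_of hLA hz).add
      (((hd_of hqA hz).clog (hslit z hz)).const_mul c)).neg.cexp)
  have hΦA : An Φ := fun z hz => (hΦd z hz).differentiableAt.differentiableWithinAt
  have hΦ0 : ∀ z ∈ ball (0:ℂ) 1, deriv Φ z = 0 := by
    apply zero_of_mul (An.deriv hΦA)
    intro z hz
    rw [(hΦd z hz).deriv]
    have e1 := hLd z hz
    have e2 := hode z hz
    have e3 := hqd z hz
    have hqz := hqne z hz
    have hd' := hf' z hz
    set E := Complex.exp (-(L z + c * Complex.log (q z))) with hE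
    have e4 : z * deriv (deriv f) z = deriv f z * (z * deriv q z / q z + q z - 1) := by
      rw [e3]; field_simp; ring
    have e5 : z * deriv L z = q z + (α:ℂ) * (z * deriv q z / q z) - 1 := by
      rw [e1]; simp only [hp]; ring
    have e6 : z * (deriv (deriv f) z * E + deriv f z * (E * -(deriv L z + c * (deriv q z / q z)))) =
        E * (z * deriv (deriv f) z - deriv f z * (z * deriv L z + c * (z * deriv q z / q z))) := by
      ring
    rw [e6, e4, e5, hc]; push_cast; ring
  have hconst : ∀ z ∈ ball (0:ℂ) 1, Φ z = Φ 0 := by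
    intro z hz
    exact isOpen_ball.is_const_of_deriv_eq_zero (convex_ball (0:ℂ) 1).isPreconnected hΦA
      (fun w hw => hΦ0 w hw) hz h0m
  have hΦv : Φ 0 = 1 := by
    simp only [hΦ]; rw [hL0, hq0, hf.one]; simp
  intro z hz
  have h2 := hconst z hz
  rw [hΦv] at h2
  simp only [hΦ] at h2
  have h3 : Complex.exp (L z + c * Complex.log (q z)) *
      Complex.exp (-(L z + c * Complex.log (q z))) = 1 := by
    rw [← Complex.exp_add]; simp
  have h4 := Complex.exp_ne_zero (-(L z + c * Complex.log (q z)))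
  rw [← Complex.exp_add]
  exact mul_right_cancel₀ h4 (h2.trans h3.symm)

end Pool.Agent.R627.AC
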