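import Pool.Agent.R627.AC.Stm
import Pool.Agent.R194.Baz.Ext

/-!
The extremal function is alpha-convex (AC12).
-/
namespace Pool.Agent.R627.AC

open PowerSeries Metric Pool.Agent.R194.Baz ComplexConjugate

/-- Noshiro-Warschawski -/
lemma noshiro {U : Set ℂ} (hU : Convex ℝ U) (hUo : IsOpen U) {g : ℂ → ℂ}
    (hg : DifferentiableOn ℂ g U) (hpos : ∀ z ∈ U, 0 < (deriv g z).re) : Set.InjOn g U := by
  intro a ha b hb hab
  by_contra hne
  have hw : b - a ≠ 0 := sub_ne_zero.mpr (Ne.symm hne)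
  have hmem : ∀ t ∈ Set.Icc (0:ℝ) 1, a + (t:ℂ) * (b - a) ∈ U := by
    intro t ht
    have := hU ha hb (sub_nonneg.mpr ht.2) ht.1 (by ring)
    have e : a + (t:ℂ) * (b - a) = (1 - t) • a + t • b := by
      simp only [Complex.real_smul]; push_cast; ring
    rw [e]; exact this
  set φ : ℝ → ℝ := fun t => (conj (b - a) * g (a + (t:ℂ) * (b - a))).re with hφ
  have hd : ∀ t ∈ Set.Icc (0:ℝ) 1, HasDerivAt φ
      (Complex.normSq (b - a) * (deriv g (a + (t:ℂ) * (b - a))).re) t := by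
    intro t ht
    have h1 : HasDerivAt g (deriv g (a + (t:ℂ) * (b - a))) (a + (t:ℂ) * (b - a)) :=
      ((hg _ (hmem t ht)).differentiableAt (hUo.mem_nhds (hmem t ht))).hasDerivAt
    have h2 : HasDerivAt (fun x : ℂ => a + x * (b - a)) (b - a) (t:ℂ) := by
      simpa using ((hasDerivAt_id (t:ℂ)).mul_const (b - a)).const_add a
    have h3 := (h1.comp (t:ℂ) h2).const_mul (conj (b - a))
    have h4 := h3.real_of_complex
    have e : conj (b - a) * (deriv g (a + (t:ℂ) * (b - a)) * (b - a)) =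
        ((Complex.normSq (b - a) : ℝ) : ℂ) * deriv g (a + (t:ℂ) * (b - a)) := by
      rw [Complex.normSq_eq_conj_mul_self]; ring
    rw [e, Complex.re_ofReal_mul] at h4
    exact h4
  have hcont : ContinuousOn φ (Set.Icc 0 1) := fun t ht => (hd t ht).continuousAt.continuousWithinAt
  obtain ⟨c, hc, hc2⟩ := exists_hasDerivAt_eq_slope φ
    (fun t => Complex.normSq (b - a) * (deriv g (a + (t:ℂ) * (b - a))).re) one_pos hcont
    (fun t ht => hd t ⟨ht.1.le, ht.2.le⟩)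
  have h0 : φ 1 - φ 0 = 0 := by
    simp only [hφ]
    have e1 : a + ((1:ℝ):ℂ) * (b - a) = b := by push_cast; ring
    have e0 : a + ((0:ℝ):ℂ) * (b - a) = a := by push_cast; ring
    rw [e1, e0, hab]; ring
  rw [h0] at hc2
  have hp := hpos _ (hmem c ⟨hc.1.le, hc.2.le⟩)
  have hn : 0 < Complex.normSq (b - a) := Complex.normSq_pos.mpr hw
  have : 0 < Complex.normSq (b - a) * (deriv g (a + (c:ℂ) * (b - a))).re := mul_pos hn hp
  rw [hc2] at this
  simp at this

/-- the Cayley map from the right half plane -/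
noncomputable def T (w : ℂ) : ℂ := (w - 1) / (w + 1)

lemma T_mem {w : ℂ} (hw : 0 < w.re) : T w ∈ ball (0:ℂ) 1 := by
  have h1 : w + 1 ≠ 0 := by
    intro h
    have := congrArg Complex.re h
    simp at this; linarith
  rw [mem_ball_zero_iff, T, norm_div, div_lt_one (norm_pos_iff.mpr h1)]
  rw [← sq_lt_sq₀ (norm_nonneg _) (norm_nonneg _), ← Complex.normSq_eq_norm_sq, ← Complex.normSq_eq_norm_sq,
    Complex.normSq_apply, Complex.normSq_apply]
  simp
  nlinarith

lemma T_inv {z : ℂ} (hz : z ∈ ball (0:ℂ) 1) : 0 < ((1 + z) / (1 - z)).re ∧ T ((1 + z) / (1 - z)) = z := by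
  have hz1 : 1 - z ≠ 0 := by
    intro h
    have : z = 1 := (sub_eq_zero.mp h).symm
    rw [this] at hz; simp at hz
  refine ⟨p0_re hz, ?_⟩
  rw [T]
  have e1 : (1 + z) / (1 - z) - 1 = 2 * z / (1 - z) := by field_simp; ring
  have e2 : (1 + z) / (1 - z) + 1 = 2 / (1 - z) := by field_simp; ring
  rw [e1, e2]; field_simp


section
variable {α : ℝ}

lemma sub_ne {z : ℂ} (hz : z ∈ ball (0:ℂ) 1) : 1 - z ≠ 0 := one_sub_ne hz

lemma q0_slit (h : Dom α (q0 α)) {z : ℂ} (hz : z ∈ ball (0:ℂ) 1) : q0 α z ∈ Complex.slitPlane :=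
  Complex.mem_slitPlane_iff.2 (Or.inl (h.pos z hz))

lemma q0_ne (h : Dom α (q0 α)) {z : ℂ} (hz : z ∈ ball (0:ℂ) 1) : q0 α z ≠ 0 :=
  Complex.slitPlane_ne_zero (q0_slit h hz)

lemma q0_hd (h : Dom α (q0 α)) {z : ℂ} (hz : z ∈ ball (0:ℂ) 1) :
    HasDerivAt (q0 α) (deriv (q0 α) z) z :=
  ((h.an z hz).differentiableAt (isOpen_ball.mem_nhds hz)).hasDerivAt

lemma L_hd (h : Dom α (q0 α)) {z : ℂ} (hz : z ∈ ball (0:ℂ) 1) :
    HasDerivAt (fun w => Complex.log (q0 α w)) (deriv (q0 α) z / q0 α z) z :=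
  (q0_hd h hz).clog (q0_slit h hz)

lemma kfun_eq (h : Dom α (q0 α)) {z : ℂ} (hz : z ∈ ball (0:ℂ) 1) :
    kfun α z = z * ((1 - z) ^ 2)⁻¹ * Complex.exp (-(α:ℂ) * Complex.log (q0 α z)) := by
  have hR : R0 α z = (q0 α z)⁻¹ := by rw [q0, inv_inv]
  have hR0 : R0 α z ≠ 0 := by rw [hR]; exact inv_ne_zero (q0_ne h hz)
  rw [kfun, Complex.cpow_def_of_ne_zero hR0, hR, Complex.log_inv]
  · congr 2; ring
  · intro he
    have := Complex.arg_eq_pi_iff.1 he
    linarith [h.pos z hz, this.1]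

lemma kd_hd (h : Dom α (q0 α)) {z : ℂ} (hz : z ∈ ball (0:ℂ) 1) (s : ℂ) :
    HasDerivAt (fun w : ℂ => ((1 - w) ^ 2)⁻¹ * Complex.exp (s * Complex.log (q0 α w)))
      (((1 - z) ^ 2)⁻¹ * Complex.exp (s * Complex.log (q0 α z)) *
        (2 / (1 - z) + s * (deriv (q0 α) z / q0 α z))) z := by
  have h1 : HasDerivAt (fun w : ℂ => (1 - w)) (-1) z := by
    simpa using (hasDerivAt_id z).const_sub 1
  have hne := sub_ne hz
  have h2 := (h1.pow 2).inv (pow_ne_zero 2 hne)
  have h3 := ((L_hd h hz).const_mul s).cexp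
  have h4 := h2.mul h3
  refine h4.congr_deriv ?_
  have e1 : ((fun w : ℂ => 1 - w) ^ 2) z = (1 - z) ^ 2 := rfl
  have e2 : ((fun w : ℂ => 1 - w) ^ 2)⁻¹ z = ((1 - z) ^ 2)⁻¹ := rfl
  rw [e1, e2]
  have hq := q0_ne h hz
  field_simp
  push_cast
  ring

lemma k_deriv (h : Dom α (q0 α)) {z : ℂ} (hz : z ∈ ball (0:ℂ) 1) :
    HasDerivAt (kfun α) (((1 - z) ^ 2)⁻¹ *
      Complex.exp (((1 - α : ℝ) : ℂ) * Complex.log (q0 α z))) z := by
  have h1 : HasDerivAt (fun w : ℂ => w * (((1 - w) ^ 2)⁻¹ *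
      Complex.exp (-(α:ℂ) * Complex.log (q0 α w)))) _ z := (hasDerivAt_id z).mul (kd_hd h hz (-(α:ℂ)))
  have h2 : kfun α =ᶠ[nhds z] (fun w : ℂ => w * (((1 - w) ^ 2)⁻¹ *
      Complex.exp (-(α:ℂ) * Complex.log (q0 α w)))) := by
    filter_upwards [isOpen_ball.mem_nhds hz] with w hw
    rw [kfun_eq h hw]; ring
  have h3 := h1.congr_of_eventuallyEq h2
  refine h3.congr_deriv ?_
  have hne := sub_ne hz
  have hq := q0_ne h hz
  have hode := h.ode z hz
  have e1 : Complex.exp (((1 - α : ℝ) : ℂ) * Complex.log (q0 α z)) =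
      q0 α z * Complex.exp (-(α:ℂ) * Complex.log (q0 α z)) := by
    have : ((1 - α : ℝ) : ℂ) * Complex.log (q0 α z) =
        Complex.log (q0 α z) + -(α:ℂ) * Complex.log (q0 α z) := by push_cast; ring
    rw [this, Complex.exp_add, Complex.exp_log hq]
  rw [e1]
  simp only [id]
  have e2 : q0 α z = 1 + z * (2 / (1 - z) + -(α:ℂ) * (deriv (q0 α) z / q0 α z)) := by
    have : (α:ℂ) * z * deriv (q0 α) z / q0 α z = (1 + z) / (1 - z) - q0 α z := by
      rw [hode]; field_simp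
    have e3 : 1 + z * (2 / (1 - z) + -(α:ℂ) * (deriv (q0 α) z / q0 α z)) =
        (1 + z) / (1 - z) - (α:ℂ) * z * deriv (q0 α) z / q0 α z := by
      field_simp; ring
    rw [e3, this]; ring
  set E := Complex.exp (-(α:ℂ) * Complex.log (q0 α z)) with hE
  set W := (2 / (1 - z) + -(α:ℂ) * (deriv (q0 α) z / q0 α z)) with hW
  rw [e2]; ring


lemma re_pow_pos {q : ℂ} (hq : 0 < q.re) {s : ℝ} (h0 : 0 ≤ s) (h1 : s ≤ 1) :
    0 < (Complex.exp ((s:ℂ) * Complex.log q)).re := by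
  rw [Complex.exp_re]
  apply mul_pos (Real.exp_pos _)
  have e : ((s:ℂ) * Complex.log q).im = s * Complex.arg q := by
    rw [Complex.im_ofReal_mul, Complex.log_im]
  rw [e]
  have ha := Complex.abs_arg_lt_pi_div_two_iff.2 (Or.inl hq)
  rw [abs_lt] at ha
  apply Real.cos_pos_of_mem_Ioo
  have hpi := Real.pi_pos
  constructor
  · nlinarith [ha.1, ha.2]
  · nlinarith [ha.1, ha.2]

lemma ne_neg_one {w : ℂ} (hw : 0 < w.re) : w + 1 ≠ 0 := by
  intro h
  have := congrArg Complex.re h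
  simp at this; linarith

lemma T_hd {w : ℂ} (hw : 0 < w.re) : HasDerivAt T (2 / (w + 1) ^ 2) w := by
  have hne := ne_neg_one hw
  have h1 : HasDerivAt (fun x : ℂ => x - 1) 1 w := (hasDerivAt_id w).sub_const 1
  have h2 : HasDerivAt (fun x : ℂ => x + 1) 1 w := (hasDerivAt_id w).add_const 1
  refine (h1.div h2 hne).congr_deriv ?_
  field_simp; ring

lemma one_sub_T {w : ℂ} (hw : 0 < w.re) : 1 - T w = 2 / (w + 1) := by
  have hne := ne_neg_one hw
  rw [T]; field_simp; ring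

theorem k_inj (h0 : 0 < α) (h1 : α < 1) (h : Dom α (q0 α)) : Set.InjOn (kfun α) (ball (0:ℂ) 1) := by
  have hU : Convex ℝ {w : ℂ | 0 < w.re} := convex_halfSpace_re_gt 0
  have hUo : IsOpen {w : ℂ | 0 < w.re} := isOpen_lt continuous_const Complex.continuous_re
  have hd : ∀ w : ℂ, 0 < w.re → HasDerivAt (fun w => kfun α (T w))
      ((1/2) * Complex.exp (((1 - α : ℝ) : ℂ) * Complex.log (q0 α (T w)))) w := by
    intro w hw
    have h2 := (k_deriv h (T_mem hw)).comp w (T_hd hw)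
    refine h2.congr_deriv ?_
    have hne := ne_neg_one hw
    rw [one_sub_T hw]
    field_simp
  have hi := noshiro hU hUo (g := fun w => kfun α (T w))
    (fun w hw => (hd w hw).differentiableAt.differentiableWithinAt) (by
      intro w hw
      rw [(hd w hw).deriv]
      have e : ((1:ℂ)/2) = (((1/2:ℝ)) : ℂ) := by push_cast; ring
      rw [e, Complex.re_ofReal_mul]
      exact mul_pos (by norm_num) (re_pow_pos (h.pos _ (T_mem hw)) (by linarith) (by linarith)))
  intro a ha b hb hab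
  obtain ⟨ha1, ha2⟩ := T_inv ha
  obtain ⟨hb1, hb2⟩ := T_inv hb
  have := hi ha1 hb1 (by simp only [ha2, hb2]; exact hab)
  rw [← ha2, ← hb2, this]

theorem k_all (h0 : 0 < α) (h1 : α < 1) (h : Dom α (q0 α)) : IsAC α (kfun α) ∧
    (∀ z ∈ ball (0:ℂ) 1, deriv (kfun α) z =
    ((1 - z) ^ 2)⁻¹ * Complex.exp (((1 - α : ℝ) : ℂ) * Complex.log (q0 α z))) ∧
    ∀ z ∈ ball (0:ℂ) 1, z * deriv (kfun α) z = kfun α z * q0 α z := by
  have hder : ∀ z ∈ ball (0:ℂ) 1, deriv (kfun α) z =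
    ((1 - z) ^ 2)⁻¹ * Complex.exp (((1 - α : ℝ) : ℂ) * Complex.log (q0 α z)) :=
    fun z hz => (k_deriv h hz).deriv
  have hzk : ∀ z ∈ ball (0:ℂ) 1, z * deriv (kfun α) z = kfun α z * q0 α z := by
    intro z hz
    rw [hder z hz, kfun_eq h hz]
    have e1 : Complex.exp (((1 - α : ℝ) : ℂ) * Complex.log (q0 α z)) =
        q0 α z * Complex.exp (-(α:ℂ) * Complex.log (q0 α z)) := by
      have : ((1 - α : ℝ) : ℂ) * Complex.log (q0 α z) =
          Complex.log (q0 α z) + -(α:ℂ) * Complex.log (q0 α z) := by push_cast; ring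
      rw [this, Complex.exp_add, Complex.exp_log (q0_ne h hz)]
    rw [e1]; ring
  refine ⟨⟨fun z hz => (k_deriv h hz).differentiableAt.differentiableWithinAt, k_inj h0 h1 h,
    by simp [kfun], ?_, ?_⟩, hder, hzk⟩
  · rw [hder 0 (mem_ball_self one_pos), h.zero]; simp
  · intro z hz hz0
    have hne := sub_ne hz
    have hq := q0_ne h hz
    have hE : Complex.exp (((1 - α : ℝ) : ℂ) * Complex.log (q0 α z)) ≠ 0 := Complex.exp_ne_zero _
    have hk' : deriv (kfun α) z ≠ 0 := by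
      rw [hder z hz]
      exact mul_ne_zero (inv_ne_zero (pow_ne_zero 2 hne)) hE
    have hk : kfun α z ≠ 0 := by
      intro h0
      have := hzk z hz
      rw [h0, zero_mul] at this
      exact mul_ne_zero hz0 hk' this
    have h2 : deriv (deriv (kfun α)) z = deriv (kfun α) z * (2 / (1 - z) +
        ((1 - α : ℝ) : ℂ) * (deriv (q0 α) z / q0 α z)) := by
      have : deriv (kfun α) =ᶠ[nhds z] fun w => ((1 - w) ^ 2)⁻¹ *
          Complex.exp (((1 - α : ℝ) : ℂ) * Complex.log (q0 α w)) := by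
        filter_upwards [isOpen_ball.mem_nhds hz] with w hw
        exact hder w hw
      rw [this.deriv_eq, (kd_hd h hz _).deriv, hder z hz]
    have e1 : z * deriv (kfun α) z / kfun α z = q0 α z := by
      rw [hzk z hz]; field_simp
    have hode := h.ode z hz
    have e2 : (α:ℂ) * z * (deriv (q0 α) z / q0 α z) = (1 + z) / (1 - z) - q0 α z := by
      rw [mul_div_assoc', hode]; field_simp
    have e3 : (α : ℂ) * (1 + z * deriv (deriv (kfun α)) z / deriv (kfun α) z) +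
      (1 - (α : ℂ)) * (z * deriv (kfun α) z / kfun α z) = (1 + z) / (1 - z) := by
      rw [e1, h2]
      have e4 : z * (deriv (kfun α) z * (2 / (1 - z) +
        ((1 - α : ℝ) : ℂ) * (deriv (q0 α) z / q0 α z))) / deriv (kfun α) z =
        z * (2 / (1 - z) + ((1 - α : ℝ) : ℂ) * (deriv (q0 α) z / q0 α z)) := by
        field_simp
      rw [e4]
      have e5 : (α : ℂ) * (1 + z * (2 / (1 - z) + ((1 - α : ℝ) : ℂ) * (deriv (q0 α) z / q0 α z))) =
          (α:ℂ) * ((1 + z) / (1 - z)) + (1 - (α:ℂ)) * ((α:ℂ) * z * (deriv (q0 α) z / q0 α z)) := by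
        have : 1 + z * (2 / (1 - z)) = (1 + z) / (1 - z) := by field_simp; ring
        rw [← this]; push_cast; ring
      rw [e5, e2]; ring
    rw [e3]
    exact p0_re hz

end

end Pool.Agent.R627.AC
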