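import Pool.Agent.R627.AC.K
import Pool.Agent.R627.AC.F
import Pool.Agent.R706.AC.Nonneg
import Pool.Agent.R806.AC.N1
import Pool.Agent.R209.AC.Contact
import Pool.Agent.H997.AC.Toep
import Pool.Agent.R1.AC.Inj
import Pool.Agent.R619.AC.Lift
import Pool.Agent.R114.AC.Comp
import Pool.Agent.R662.AC9
import Pool.Agent.R372.AC.RePos
import Pool.Agent.R372.AC.R0

/-!
The coefficient theorem for alpha-convex functions.
-/
namespace Pool.Agent.R627.AC

open PowerSeries Metric Pool.Agent.R194.Baz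

theorem dom_q0 {α : ℝ} (h0 : 0 < α) : Dom α (q0 α) := by
  obtain ⟨hA, hz0, hode⟩ := r0_facts α h0
  have hpos : ∀ z ∈ ball (0:ℂ) 1, 0 < (R0 α z).re :=
    re_pos α (R0 α) (fun z => (1 + z) / (1 - z)) h0 hA hz0 (fun z hz => p0_re hz) hode
  have hne : ∀ z ∈ ball (0:ℂ) 1, R0 α z ≠ 0 := by
    intro z hz h
    have := hpos z hz
    rw [h] at this; simp at this
  have hd : ∀ z ∈ ball (0:ℂ) 1, HasDerivAt (q0 α) (-(deriv (R0 α) z) / (R0 α z) ^ 2) z :=
    fun z hz => (hd_of hA hz).inv (hne z hz)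
  refine ⟨fun z hz => (hd z hz).differentiableAt.differentiableWithinAt, by simp [q0, hz0], ?_, ?_⟩
  · intro z hz
    rw [q0, Complex.inv_re]
    exact div_pos (hpos z hz) (Complex.normSq_pos.2 (hne z hz))
  · intro z hz
    rw [(hd z hz).deriv]
    have h2 := hode z hz
    have h3 := hne z hz
    have h4 := one_sub_ne hz
    simp only [q0]
    have e : (α:ℂ) * z * (-(deriv (R0 α) z) / (R0 α z) ^ 2) =
        (-((α:ℂ) * z * deriv (R0 α) z)) / (R0 α z) ^ 2 := by ring
    have e2 : (α:ℂ) * z * deriv (R0 α) z = 1 - (1 + z) / (1 - z) * R0 α z := by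
      linear_combination h2
    rw [e, e2]
    field_simp
    ring

lemma an_at {f : ℂ → ℂ} (hf : An f) : AnalyticAt ℂ f 0 :=
  hf.analyticAt (ball_mem_nhds _ one_pos)

lemma coeff_X_der (g : PowerSeries ℂ) (n : ℕ) : coeff n (X * derivative ℂ g) = n * coeff n g := by
  cases n with
  | zero => simp
  | succ n => rw [coeff_succ_X_mul, coeff_derivative]; push_cast; ring

/-- the coefficients `q_n` of `z k' / k` for the extremal function, given by
`q_0 = 1`, `(1 + n α) q_n = 2 + ∑_{i=1}^{n-1} q_i (2 - q_{n-i})` -/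
noncomputable def qc (α : ℝ) : ℕ → ℝ
  | 0 => 1
  | n + 1 => (2 + ∑ i : Fin n, qc α (i.1 + 1) * (2 - qc α (n - i.1))) / (1 + (n + 1) * α)
termination_by n => n
decreasing_by
  all_goals omega

/-- the coefficients `A_n` of the extremal function: `A_0 = 0`, `A_1 = 1`,
`(n - 1) A_n = ∑_{i=1}^{n-1} q_i A_{n-i}` -/
noncomputable def Ac (α : ℝ) : ℕ → ℝ
  | 0 => 0
  | 1 => 1
  | n + 2 => (∑ i : Fin (n + 1), qc α (i.1 + 1) * Ac α (n + 1 - i.1)) / (n + 1)
termination_by n => n
decreasing_by
  all_goals omega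

theorem dom_ode {α : ℝ} {Q : ℂ → ℂ} (hQ : Dom α Q) :
    PowerSeries.C (α : ℂ) * (X * derivative ℂ (tay Q)) = tay Q * (P0 - tay Q) := by
  have hQan := an_at hQ.an
  have hQd := hQan.deriv
  have hp0an : AnalyticAt ℂ (fun z : ℂ => (1 + z) / (1 - z)) 0 := an_at p0_diff
  have h1 : tay (fun z => (α : ℂ) * (z * deriv Q z)) =
      tay (fun z => Q z * ((1 + z) / (1 - z) - Q z)) := by
    apply tay_congr_ball
    intro z hz
    rw [← hQ.ode z hz]
    ring
  have hid : AnalyticAt ℂ (fun z : ℂ => z) 0 := analyticAt_id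
  rw [tay_const_mul (f := fun z => z * deriv Q z) _ (hid.mul hQd), tay_mul hid hQd, tay_id,
    ← tay_deriv] at h1
  rw [h1]
  have hdan : AnalyticAt ℂ (fun z : ℂ => (1 + z) / (1 - z) - Q z) 0 := hp0an.sub hQan
  rw [tay_mul (f := Q) (g := fun z : ℂ => (1 + z) / (1 - z) - Q z) hQan hdan]
  congr 1
  have h2 : tay (fun z : ℂ => (1 + z) / (1 - z) - Q z) + tay Q = P0 := by
    rw [← tay_add hdan hQan, ← tay_p0]
    apply tay_congr_ball
    intro z _
    ring
  rw [← h2]
  ring

theorem coeff_dom {α : ℝ} (h0 : 0 < α) {Q : ℂ → ℂ} (hQ : Dom α Q) (n : ℕ) :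
    coeff n (tay Q) = (qc α n : ℂ) := by
  induction n using Nat.strong_induction_on with
  | _ n ih =>
    rcases n with _ | m
    · rw [coeff_zero_eq_constantCoeff_apply, tay_zero, hQ.zero, qc]; simp
    · have h := congrArg (coeff (m + 1)) (dom_ode hQ)
      rw [coeff_C_mul, coeff_X_der, PowerSeries.coeff_mul,
        Finset.Nat.sum_antidiagonal_eq_sum_range_succ_mk, Finset.sum_range_succ',
        Finset.sum_range_succ] at h
      have hT0 : coeff 0 (tay Q) = 1 := by
        rw [coeff_zero_eq_constantCoeff_apply, tay_zero, hQ.zero]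
      have hD0 : coeff 0 (P0 - tay Q) = 0 := by
        rw [map_sub, hT0, P0, coeff_mk, if_pos rfl, sub_self]
      have hDn : ∀ n, n ≠ 0 → coeff n (P0 - tay Q) = 2 - coeff n (tay Q) := by
        intro n hn
        rw [map_sub, P0, coeff_mk, if_neg hn]
      simp only [Nat.sub_zero] at h
      rw [show m + 1 - (m + 1) = 0 by omega, hD0, mul_zero, add_zero, hT0, one_mul,
        hDn (m + 1) (by omega)] at h
      have hs : ∑ x ∈ Finset.range m, coeff (x + 1) (tay Q) * coeff (m + 1 - (x + 1)) (P0 - tay Q) =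
          ((∑ i : Fin m, qc α (i.1 + 1) * (2 - qc α (m - i.1)) : ℝ) : ℂ) := by
        rw [← Finset.sum_range (fun i => qc α (i + 1) * (2 - qc α (m - i)))]
        push_cast
        refine Finset.sum_congr rfl fun x hx => ?_
        have hx' := Finset.mem_range.1 hx
        rw [hDn (m - x) (by omega), ih (x + 1) (by omega), ih (m - x) (by omega)]
      rw [hs] at h
      rw [qc]
      have hne : (1 + ((m:ℂ) + 1) * (α:ℂ)) ≠ 0 := by
        have : (1 + ((m:ℝ) + 1) * α) ≠ 0 := by positivity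
        exact_mod_cast this
      push_cast at h ⊢
      rw [eq_div_iff hne]
      linear_combination h

theorem coeff_k {α : ℝ} (h0 : 0 < α) (h1 : α < 1) (n : ℕ) :
    coeff n (tay (kfun α)) = (Ac α n : ℂ) := by
  have D := dom_q0 h0
  obtain ⟨hk, -, hzk⟩ := k_all h0 h1 D
  have hkA : AnalyticAt ℂ (kfun α) 0 := an_at hk.diff
  have hqA : AnalyticAt ℂ (q0 α) 0 := an_at D.an
  have hid : AnalyticAt ℂ (fun z : ℂ => z) 0 := analyticAt_id
  have e : X * derivative ℂ (tay (kfun α)) = tay (kfun α) * tay (q0 α) := by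
    have := tay_congr_ball hzk
    rw [tay_mul hid hkA.deriv, tay_mul hkA hqA, tay_id, ← tay_deriv] at this
    exact this
  have hK0 : coeff 0 (tay (kfun α)) = 0 := by
    rw [coeff_zero_eq_constantCoeff_apply, tay_zero, hk.zero]
  have hK1 : coeff 1 (tay (kfun α)) = 1 := by
    rw [coeff_tay, iteratedDeriv_one, hk.one]; simp
  induction n using Nat.strong_induction_on with
  | _ n ih =>
    rcases n with _ | _ | m
    · rw [hK0, Ac]; simp
    · rw [zero_add, hK1, Ac]; simp
    · have h := congrArg (coeff (m + 2)) e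
      rw [coeff_X_der, PowerSeries.coeff_mul, ← Finset.Nat.sum_antidiagonal_swap] at h
      simp only [Prod.fst_swap, Prod.snd_swap] at h
      rw [Finset.Nat.sum_antidiagonal_eq_sum_range_succ_mk, Finset.sum_range_succ',
        Finset.sum_range_succ] at h
      simp only [Nat.sub_zero] at h
      rw [show m + 2 - (m + 1 + 1) = 0 by omega, hK0, zero_mul, add_zero,
        coeff_dom h0 D 0] at h
      have hq : qc α 0 = 1 := by rw [qc]
      rw [hq] at h
      have hs : ∑ x ∈ Finset.range (m + 1), coeff (m + 2 - (x + 1)) (tay (kfun α)) *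
          coeff (x + 1) (tay (q0 α)) =
          ((∑ i : Fin (m + 1), qc α (i.1 + 1) * Ac α (m + 1 - i.1) : ℝ) : ℂ) := by
        rw [← Finset.sum_range (fun i => qc α (i + 1) * Ac α (m + 1 - i))]
        push_cast
        refine Finset.sum_congr rfl fun x hx => ?_
        have hx' := Finset.mem_range.1 hx
        rw [ih (m + 1 - x) (by omega), coeff_dom h0 D (x + 1)]
        ring
      rw [hs] at h
      rw [Ac]
      have hne : ((m:ℂ) + 1) ≠ 0 := by exact_mod_cast Nat.succ_ne_zero m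
      push_cast at h ⊢
      rw [eq_div_iff hne]
      linear_combination h

lemma tay_koebe : tay (fun z : ℂ => ((1 - z) ^ 2)⁻¹) = PowerSeries.mk fun i : ℕ => ((i:ℂ) + 1) := by
  have hA : An (fun z : ℂ => ((1 - z) ^ 2)⁻¹) := by
    intro z hz
    have := one_sub_ne hz
    exact (((differentiableAt_const (1:ℂ)).sub differentiableAt_id).pow 2 |>.inv
      (pow_ne_zero 2 this)).differentiableWithinAt
  have han := an_at hA
  have h1 : AnalyticAt ℂ (fun z : ℂ => 1 - z) 0 := analyticAt_const.sub analyticAt_id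
  have t1 : tay (fun z : ℂ => 1 - z) = 1 - X := by
    have : tay (fun z : ℂ => 1 + (-1) * z) = 1 - X := by
      rw [tay_add (f := fun _ => 1) (g := fun z => (-1) * z) analyticAt_const
        (analyticAt_const.mul analyticAt_id), tay_const,
        tay_const_mul (f := fun z => z) (-1) analyticAt_id, tay_id]
      simp [sub_eq_add_neg]
    rw [← this]; congr 1; funext z; ring
  have e1 : (1 - X) * ((1 - X) * tay (fun z : ℂ => ((1 - z) ^ 2)⁻¹)) = 1 := by
    rw [← t1, ← tay_mul h1 han, ← tay_mul (g := fun z => (1 - z) * ((1 - z) ^ 2)⁻¹) h1 (h1.mul han)]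
    rw [tay_congr_ball (g := fun _ => 1) (fun z hz => by
      have := one_sub_ne hz
      field_simp), tay_const]
    simp
  have e2 : (1 - X) * ((1 - X) * (PowerSeries.mk fun i : ℕ => ((i:ℂ) + 1))) = 1 := by
    have e3 : (1 - X) * (PowerSeries.mk fun i : ℕ => ((i:ℂ) + 1)) = PowerSeries.mk fun _ => (1:ℂ) := by
      ext n
      rw [sub_mul, one_mul, map_sub, coeff_mk, coeff_mk]
      rcases n with _ | n
      · simp
      · rw [coeff_succ_X_mul, coeff_mk]; push_cast; ring
    rw [e3]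
    ext n
    rw [sub_mul, one_mul, map_sub, coeff_mk, PowerSeries.coeff_one]
    rcases n with _ | n
    · simp
    · rw [coeff_succ_X_mul, coeff_mk]; simp
  have hX : (1 - X : PowerSeries ℂ) ≠ 0 := by
    intro h
    have := congrArg (coeff 0) h
    simp at this
  exact mul_left_cancel₀ hX (mul_left_cancel₀ hX (e1.trans e2.symm))

theorem bound {α : ℝ} (h0 : 0 < α) (h1 : α < 1) {f : ℂ → ℂ} (hf : IsAC α f) (n : ℕ) :
    ‖coeff n (tay f)‖ ≤ Ac α n := by
  have D := dom_q0 h0
  obtain ⟨hk, hkd, -⟩ := k_all h0 h1 D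
  have hd0 : deriv (q0 α) 0 = ((2 / (1 + α) : ℝ) : ℂ) := by
    have h := coeff_dom h0 D 1
    rw [coeff_tay, iteratedDeriv_one] at h
    rw [show ((Nat.factorial 1 : ℕ) : ℂ) = 1 by simp, div_one] at h
    rw [h, qc]; simp
  have hN := n1_pos (q0 α) D.an D.zero D.pos (by
    rw [hd0]
    intro h
    have h2 : (2 / (1 + α) : ℝ) = 2 := by exact_mod_cast h
    rw [div_eq_iff (by linarith)] at h2
    linarith)
  obtain ⟨hinj, hder⟩ := inj_q α (q0 α) h0 D (by
    rw [hd0, Complex.ofReal_re]; positivity) hN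
  obtain ⟨q, p, L, hqA, hpA, hLA, hq0, hp0, hL0, hp, hode, hLd, hfq, hfd⟩ := f_all α f h0 h1 hf
  obtain ⟨ω, hωA, hω0, hle, hω⟩ := lift (q0 α) q D.an hqA (by rw [hq0, D.zero]) hinj hder
    (fun r ω hr hr1 hω hω0 hmem heq =>
      contact α (q0 α) q p ω r h0 D hN hpA hp0 hp hqA hode hr hr1 hω hω0 hmem heq)
  have hωm : ∀ z ∈ ball (0:ℂ) 1, ω z ∈ ball (0:ℂ) 1 := by
    intro z hz
    rw [mem_ball_zero_iff] at hz ⊢
    exact lt_of_le_of_lt (hle z (mem_ball_zero_iff.2 hz)) hz
  have hqpos : ∀ z ∈ ball (0:ℂ) 1, 0 < (q z).re := by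
    intro z hz
    rw [← hω z hz]
    exact D.pos _ (hωm z hz)
  have hfd' := hfd hqpos
  set Q : ℂ → ℂ := fun z => Complex.exp (((1 - α : ℝ) : ℂ) * Complex.log (q0 α z)) with hQ
  have hQA : An Q := by
    intro z hz
    exact ((L_hd D hz).const_mul _).cexp.differentiableAt.differentiableWithinAt
  set E : ℂ → ℂ := fun z => Complex.exp (L z / 2) with hE
  have hEA : An E := fun z hz => ((hd_of hLA hz).div_const 2).cexp.differentiableAt.differentiableWithinAt
  have hQωA : An (fun z => Q (ω z)) := hQA.comp hωA hωm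
  have t1 : tay (deriv f) = tay E * tay E * tay (fun z => Q (ω z)) := by
    have hEE : AnalyticAt ℂ (fun z => E z * E z) 0 := (an_at hEA).mul (an_at hEA)
    rw [← tay_mul (an_at hEA) (an_at hEA), ← tay_mul hEE (an_at hQωA)]
    apply tay_congr_ball
    intro z hz
    rw [hfd' z hz]
    simp only [hE, hQ]
    rw [hω z hz, show Complex.exp (L z) = Complex.exp (L z / 2) * Complex.exp (L z / 2) by
      rw [← Complex.exp_add, add_halves]]
  have t2 : tay (deriv (kfun α)) = (PowerSeries.mk fun i : ℕ => ((i:ℂ) + 1)) * tay Q := by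
    have hA : An (fun z : ℂ => ((1 - z) ^ 2)⁻¹) := by
      intro z hz
      have := one_sub_ne hz
      exact (((differentiableAt_const (1:ℂ)).sub differentiableAt_id).pow 2 |>.inv
        (pow_ne_zero 2 this)).differentiableWithinAt
    rw [← tay_koebe, ← tay_mul (an_at hA) (an_at hQA)]
    exact tay_congr_ball hkd
  have hZ := z_coeff p L hpA hp0 hp hLA hL0 hLd
  rcases n with _ | m
  · rw [coeff_zero_eq_constantCoeff_apply, tay_zero, hf.zero, norm_zero, Ac]
  · have hc := comp Pool.Agent.H997.AC.toep Q ω (tay E) hQA hωA hω0 hle hZ m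
    rw [← t1] at hc
    choose c hc0 hcQ using nonneg α (q0 α) h0 h1 D
    have hk2 : ((m:ℂ) + 1) * (Ac α (m + 1) : ℂ) =
        ((∑ j ∈ Finset.range (m + 1), ‖coeff j (tay Q)‖ * ((m : ℝ) - j + 1) : ℝ) : ℂ) := by
      have h := congrArg (coeff m) t2
      rw [← tay_deriv, coeff_derivative, coeff_k h0 h1, PowerSeries.coeff_mul,
        ← Finset.Nat.sum_antidiagonal_swap] at h
      simp only [Prod.fst_swap, Prod.snd_swap] at h
      rw [Finset.Nat.sum_antidiagonal_eq_sum_range_succ_mk] at h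
      rw [mul_comm, h]
      push_cast
      refine Finset.sum_congr rfl fun j hj => ?_
      have hj' : j ≤ m := by simpa [Nat.lt_succ_iff] using hj
      rw [coeff_mk, hcQ j, Complex.norm_real, Real.norm_eq_abs, abs_of_nonneg (hc0 j),
        Nat.cast_sub hj']
      ring
    have hk3 : ((m:ℝ) + 1) * Ac α (m + 1) =
        ∑ j ∈ Finset.range (m + 1), ‖coeff j (tay Q)‖ * ((m : ℝ) - j + 1) := by
      exact_mod_cast hk2
    rw [← hk3, ← tay_deriv, coeff_derivative, norm_mul] at hc
    have hm : ‖((m:ℂ) + 1)‖ = (m:ℝ) + 1 := by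
      have : ((m:ℂ) + 1) = (((m:ℝ) + 1 : ℝ) : ℂ) := by push_cast; ring
      rw [this, Complex.norm_real, Real.norm_eq_abs, abs_of_pos (by positivity)]
    rw [hm, mul_comm] at hc
    exact le_of_mul_le_mul_left hc (by positivity)

theorem Ac_nonneg {α : ℝ} (h0 : 0 < α) (h1 : α < 1) (n : ℕ) : 0 ≤ Ac α n :=
  (norm_nonneg _).trans (bound h0 h1 (k_all h0 h1 (dom_q0 h0)).1 n)

end Pool.Agent.R627.AC
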