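import Pool.Agent.R194.Baz.Her

/-!
Alpha-convex functions: definitions and exact statements of the pieces of the proof.
-/
namespace Pool.Agent.R627.AC

open PowerSeries Metric Pool.Agent.R194.Baz

/-- differentiable (hence analytic) on the open unit disc -/
def An (f : ℂ → ℂ) : Prop := DifferentiableOn ℂ f (ball (0:ℂ) 1)

/-- the numbers `s_k = ∏_{i=1}^k (α i - 1)/(α i + 1)` -/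
noncomputable def s (α : ℝ) (k : ℕ) : ℝ :=
  ∏ i ∈ Finset.range k, (α * (i + 1) - 1) / (α * (i + 1) + 1)

/-- `ρ(z) = ∑ s_k z^k` -/
noncomputable def rho (α : ℝ) (z : ℂ) : ℂ := ∑' k : ℕ, (s α k : ℂ) * z ^ k

noncomputable def R0 (α : ℝ) (z : ℂ) : ℂ := (1 - z) * rho α z

noncomputable def q0 (α : ℝ) (z : ℂ) : ℂ := (R0 α z)⁻¹

/-- the extremal function `k(z) = z (1-z)^{-2} ((1-z) ρ(z))^α` -/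
noncomputable def kfun (α : ℝ) (z : ℂ) : ℂ := z * ((1 - z) ^ 2)⁻¹ * (R0 α z) ^ (α : ℂ)

/-- the class `M(α)` -/
structure IsAC (α : ℝ) (f : ℂ → ℂ) : Prop where
  diff : DifferentiableOn ℂ f (ball (0:ℂ) 1)
  inj : Set.InjOn f (ball (0:ℂ) 1)
  zero : f 0 = 0
  one : deriv f 0 = 1
  pos : ∀ z ∈ ball (0:ℂ) 1, z ≠ 0 →
    0 < ((α : ℂ) * (1 + z * deriv (deriv f) z / deriv f z) +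
      (1 - (α : ℂ)) * (z * deriv f z / f z)).re

/-- `Q` is an analytic function with positive real part, `Q(0) = 1`,
`α z Q' = Q ((1+z)/(1-z) - Q)`. -/
structure Dom (α : ℝ) (Q : ℂ → ℂ) : Prop where
  an : An Q
  zero : Q 0 = 1
  pos : ∀ z ∈ ball (0:ℂ) 1, 0 < (Q z).re
  ode : ∀ z ∈ ball (0:ℂ) 1, (α:ℂ) * z * deriv Q z = Q z * ((1 + z) / (1 - z) - Q z)

/-- AC1 -/
def StR0 : Prop := ∀ α : ℝ, 0 < α → An (R0 α) ∧ R0 α 0 = 1 ∧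
  ∀ z ∈ ball (0:ℂ) 1, (α:ℂ) * z * deriv (R0 α) z + (1 + z) / (1 - z) * R0 α z = 1

/-- AC2 -/
def StRePos : Prop := ∀ (α : ℝ) (R p : ℂ → ℂ), 0 < α → An R → R 0 = 1 →
  (∀ z ∈ ball (0:ℂ) 1, 0 < (p z).re) →
  (∀ z ∈ ball (0:ℂ) 1, (α:ℂ) * z * deriv R z + p z * R z = 1) →
  ∀ z ∈ ball (0:ℂ) 1, 0 < (R z).re

/-- AC3 -/
def StN1 : Prop := ∀ q : ℂ → ℂ, An q → q 0 = 1 → (∀ z ∈ ball (0:ℂ) 1, 0 < (q z).re) →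
  deriv q 0 ≠ 2 → ∀ z ∈ ball (0:ℂ) 1, z ≠ 0 →
  0 < ((((1 + z) / (1 - z)) - q z) * (1 - z) ^ 2 / z).re

/-- AC4 -/
def StInj : Prop := ∀ (α : ℝ) (Q : ℂ → ℂ), 0 < α → Dom α Q → 0 < (deriv Q 0).re →
  (∀ z ∈ ball (0:ℂ) 1, z ≠ 0 → 0 < ((((1 + z) / (1 - z)) - Q z) * (1 - z) ^ 2 / z).re) →
  Set.InjOn Q (ball (0:ℂ) 1) ∧ ∀ z ∈ ball (0:ℂ) 1, deriv Q z ≠ 0

/-- AC5 -/
def StContact : Prop := ∀ (α : ℝ) (Q q p ω : ℂ → ℂ) (r : ℝ), 0 < α → Dom α Q →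
  (∀ z ∈ ball (0:ℂ) 1, z ≠ 0 → 0 < ((((1 + z) / (1 - z)) - Q z) * (1 - z) ^ 2 / z).re) →
  An p → p 0 = 1 → (∀ z ∈ ball (0:ℂ) 1, 0 < (p z).re) →
  An q → (∀ z ∈ ball (0:ℂ) 1, (α:ℂ) * z * deriv q z = q z * (p z - q z)) →
  0 < r → r ≤ 1 → DifferentiableOn ℂ ω (ball (0:ℂ) r) → ω 0 = 0 →
  (∀ z ∈ ball (0:ℂ) r, ω z ∈ ball (0:ℂ) 1) → (∀ z ∈ ball (0:ℂ) r, Q (ω z) = q z) →
  ∀ z ∈ ball (0:ℂ) r, ‖ω z‖ ≤ ‖z‖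

/-- AC6 -/
def StLift : Prop := ∀ (Q g : ℂ → ℂ), An Q → An g → g 0 = Q 0 →
  Set.InjOn Q (ball (0:ℂ) 1) → (∀ z ∈ ball (0:ℂ) 1, deriv Q z ≠ 0) →
  (∀ (r : ℝ) (ω : ℂ → ℂ), 0 < r → r ≤ 1 → DifferentiableOn ℂ ω (ball (0:ℂ) r) → ω 0 = 0 →
    (∀ z ∈ ball (0:ℂ) r, ω z ∈ ball (0:ℂ) 1) → (∀ z ∈ ball (0:ℂ) r, Q (ω z) = g z) →
    ∀ z ∈ ball (0:ℂ) r, ‖ω z‖ ≤ ‖z‖) →
  ∃ ω : ℂ → ℂ, An ω ∧ ω 0 = 0 ∧ (∀ z ∈ ball (0:ℂ) 1, ‖ω z‖ ≤ ‖z‖) ∧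
    ∀ z ∈ ball (0:ℂ) 1, Q (ω z) = g z

/-- AC7 -/
def StNonneg : Prop := ∀ (α : ℝ) (Q : ℂ → ℂ), 0 < α → α < 1 → Dom α Q → ∀ n : ℕ,
  ∃ c : ℝ, 0 ≤ c ∧
    coeff n (tay fun z => Complex.exp (((1 - α : ℝ) : ℂ) * Complex.log (Q z))) = (c : ℂ)

/-- AC8 -/
def StToep : Prop := ∀ (B : ℂ → ℂ) (Z : PowerSeries ℂ), An B →
  (∀ z ∈ ball (0:ℂ) 1, ‖B z‖ ≤ 1) → (∀ i, ‖coeff i Z‖ ≤ 1) →
  ∀ m : ℕ, ‖coeff m (Z * Z * tay B)‖ ≤ m + 1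

/-- AC9 -/
def StZ : Prop := ∀ p L : ℂ → ℂ, An p → p 0 = 1 → (∀ z ∈ ball (0:ℂ) 1, 0 < (p z).re) →
  An L → L 0 = 0 → (∀ z ∈ ball (0:ℂ) 1, z * deriv L z = p z - 1) →
  ∀ i : ℕ, ‖coeff i (tay fun z => Complex.exp (L z / 2))‖ ≤ 1

/-- AC10 -/
def StComp : Prop := ∀ (Q ω : ℂ → ℂ) (Z : PowerSeries ℂ), An Q → An ω → ω 0 = 0 →
  (∀ z ∈ ball (0:ℂ) 1, ‖ω z‖ ≤ ‖z‖) → (∀ i, ‖coeff i Z‖ ≤ 1) →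
  ∀ m : ℕ, ‖coeff m (Z * Z * tay (fun z => Q (ω z)))‖ ≤
    ∑ j ∈ Finset.range (m + 1), ‖coeff j (tay Q)‖ * ((m : ℝ) - j + 1)

/-- AC11 -/
def StF : Prop := ∀ (α : ℝ) (f : ℂ → ℂ), 0 < α → α < 1 → IsAC α f →
  ∃ q p L : ℂ → ℂ, An q ∧ An p ∧ An L ∧ q 0 = 1 ∧ p 0 = 1 ∧ L 0 = 0 ∧
    (∀ z ∈ ball (0:ℂ) 1, 0 < (p z).re) ∧
    (∀ z ∈ ball (0:ℂ) 1, (α:ℂ) * z * deriv q z = q z * (p z - q z)) ∧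
    (∀ z ∈ ball (0:ℂ) 1, z * deriv L z = p z - 1) ∧
    (∀ z ∈ ball (0:ℂ) 1, z * deriv f z = f z * q z) ∧
    ((∀ z ∈ ball (0:ℂ) 1, 0 < (q z).re) → ∀ z ∈ ball (0:ℂ) 1,
      deriv f z = Complex.exp (L z) * Complex.exp (((1 - α : ℝ) : ℂ) * Complex.log (q z)))

/-- AC12 -/
def StK : Prop := ∀ α : ℝ, 0 < α → α < 1 → Dom α (q0 α) → IsAC α (kfun α) ∧
  ∀ z ∈ ball (0:ℂ) 1, deriv (kfun α) z =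
    ((1 - z) ^ 2)⁻¹ * Complex.exp (((1 - α : ℝ) : ℂ) * Complex.log (q0 α z))

end Pool.Agent.R627.AC
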